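import Pool.Agent.Helper597.KStar

set_option autoImplicit false

namespace Pool.Agent.Results.MP_a20daa_co.StarThresholdRange

/-- `S` is `K_{1,k}`-isolating: in the graph induced on the complement of the closed neighbourhood
of `S` every vertex has fewer than `k` neighbours. -/
def Isolating {n : ℕ} (G : SimpleGraph (Fin n)) (k : ℕ) (S : Finset (Fin n)) : Prop :=
  ∀ v : Fin n, (v ∉ S ∧ ∀ s ∈ S, ¬ G.Adj s v) →
    {w : Fin n | G.Adj v w ∧ w ∉ S ∧ ∀ s ∈ S, ¬ G.Adj s w}.ncard < k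

/-- The isolation number `ι(G, K_{1,k})`: the least size of a `K_{1,k}`-isolating set. -/
noncomputable def iota {n : ℕ} (G : SimpleGraph (Fin n)) (k : ℕ) : ℕ :=
  sInf {m : ℕ | ∃ S : Finset (Fin n), S.card = m ∧ Isolating G k S}

/-- `α` is a threshold for `{K_{1,k}}`: only finitely many connected graphs with vertex set `[n]`
have `ι > ⌊α n⌋`, and infinitely many have `ι = ⌊α n⌋`. -/
def IsThreshold (k : ℕ) (α : ℝ) : Prop :=
  0 < α ∧
  {p : Σ n : ℕ, SimpleGraph (Fin n) | p.2.Connected ∧ ⌊α * (p.1 : ℝ)⌋₊ < iota p.2 k}.Finite ∧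
  {p : Σ n : ℕ, SimpleGraph (Fin n) | p.2.Connected ∧ iota p.2 k = ⌊α * (p.1 : ℝ)⌋₊}.Infinite

/-- For every `k ≥ 1`:
(1) every connected graph on `n ≥ 2k+3` vertices has a `K_{1,k}`-isolating set of size at most
`(1 - 1/(6(k+1)^11)) · n/(k+1)`;
(2) every threshold `α` for `{K_{1,k}}` satisfies `α ≤ (1 - 1/(6(k+1)^11)) / (k+1)`, in particular
`c(K_{1,k}) < 1/(k+1)`. -/
theorem result :
    ∀ k : ℕ, 1 ≤ k →
      (∀ n : ℕ, 2 * k + 3 ≤ n → ∀ G : SimpleGraph (Fin n), G.Connected →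
        (iota G k : ℝ) ≤ (1 - 1 / (6 * ((k : ℝ) + 1) ^ 11)) * ((n : ℝ) / ((k : ℝ) + 1))) ∧
      (∀ α : ℝ, IsThreshold k α →
        α ≤ (1 - 1 / (6 * ((k : ℝ) + 1) ^ 11)) / ((k : ℝ) + 1) ∧ α < 1 / ((k : ℝ) + 1)) := by
  intro k hk
  refine ⟨fun n hn G hG => Pool.Agent.Helper597.KStar.iota_bound k n hk hn G hG, fun α h => ?_⟩
  have h1 : α ≤ (1 - 1 / (6 * ((k : ℝ) + 1) ^ 11)) / ((k : ℝ) + 1) :=
    Pool.Agent.Helper597.KStar.threshold_bound k hk α h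
  refine ⟨h1, lt_of_le_of_lt h1 ?_⟩
  have hk0 : (0 : ℝ) < (k : ℝ) + 1 := by positivity
  have : (0 : ℝ) < 1 / (6 * ((k : ℝ) + 1) ^ 11) := by positivity
  exact div_lt_div_of_pos_right (by linarith) hk0

end Pool.Agent.Results.MP_a20daa_co.StarThresholdRange
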